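import Pool.Agent.KS6_29.Rate

set_option autoImplicit false

/-!
MP_f9aece_nt, the moments near the critical line, with an exponential rate, for every rational order `β ≤ 4`.

For every rational `β = 2p/q ≤ 4`, `q ≥ 2`, the moment of order `β` of `ζ(σ + ix + iuT)` equals the Dirichlet series
`∑ d_{β/2}(n)² n^{-2σ}` up to a factor `1 + O(T^{-c(σ - 1/2)})`, uniformly for `1/2 + 1/log T ≤ σ ≤ 1/2 + r`, for all `c, r > 0`
with `r ≤ 1/16` and `c (q + 2r) < 2`; e.g. `c = 1/q`, `r = 1/16`.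

Proof. Let `D` be the truncation of the Dirichlet series of `ζ^{p/q}` at `N = T^{1-η}`. The function `ζ^p - D^q` is analytic
and its Dirichlet series starts beyond `N`, so its mean of order `2/q` decays like `N^{-(2/q)(σ - 1/2)}` to the right of the
critical line (Poisson integral of the half plane); on the critical line it is `O((log T)^{β²/4})`, by the upper bound for
the moments of order `β ≤ 4`; and `||ζ|^β - |D|²| ≤ |ζ^p - D^q|^{2/q}`.
-/

open Filter Topology MeasureTheory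

namespace Pool.Agent.Results.MP_f9aece_nt.ExponentialRate

/-- the generalised divisor function: the coefficients `∏_{p^e ∥ n} κ(κ+1)⋯(κ+e-1)/e!` of `ζ(s)^κ` -/
noncomputable def d (κ : ℝ) (n : ℕ) : ℝ :=
  if n = 0 then 0 else n.factorization.prod fun _ e => ∏ i ∈ Finset.range e, (κ + i) / ((i : ℝ) + 1)

lemma d_eq (κ : ℝ) (n : ℕ) : d κ n = Pool.Agent.H306R2.dv κ n := rfl

theorem result (p q : ℕ) (hp : 1 ≤ p) (hq : 2 ≤ q) (hpq : p ≤ 2 * q) (c r : ℝ) (hc : 0 < c) (hr : 0 < r)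
    (hr1 : r ≤ 1 / 16) (hcr : c * (q + 2 * r) < 2) :
    ∃ C : ℝ, 0 < C ∧ ∀ x : ℝ, ∀ᶠ T : ℝ in atTop, ∀ σ : ℝ, 1 / 2 + 1 / Real.log T ≤ σ → σ ≤ 1 / 2 + r →
      |(∫ u in (0:ℝ)..1, ‖riemannZeta (σ + x * Complex.I + (u * T) * Complex.I)‖ ^ (2 * (p:ℝ) / q)) /
        (∑' n : ℕ, d ((p:ℝ) / q) n ^ 2 * (n:ℝ) ^ (-(2 * σ))) - 1| ≤ C * T ^ (-(c * (σ - 1 / 2))) := by
  obtain ⟨C, hC, h⟩ := Pool.Agent.KS6_29.rate hq hp hpq hc hr hr1 hcr
  refine ⟨C, hC, fun x => ?_⟩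
  filter_upwards [h x] with T hT σ h1 h2
  have h3 := hT (σ - 1 / 2) (by linarith) (by linarith)
  have e1 : 1 / 2 + (σ - 1 / 2) = σ := by ring
  have e2 : Pool.Agent.Y755.DD ((p:ℝ) / q) (σ - 1 / 2) =
      ∑' n : ℕ, d ((p:ℝ) / q) n ^ 2 * (n:ℝ) ^ (-(2 * σ)) := by
    rw [← Pool.Agent.Y755.Dser_eq, e1]
    unfold Pool.Agent.Y755.Dser
    refine tsum_congr fun n => ?_
    rw [d_eq, show 2 * ((p:ℝ) / q) / 2 = (p:ℝ) / q by ring]
  rw [e1, e2] at h3
  have e3 : 2 * (p:ℝ) / q = 2 * ((p:ℝ) / q) := by ring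
  rw [e3]
  exact h3

end Pool.Agent.Results.MP_f9aece_nt.ExponentialRate
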