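import Pool.Agent.KS6_89.BT.Fin2
import Pool.Graph.R_pool_sql_team_seeded_47a924f7.Results.MP_f9aece_nt.UniformShifts
import Pool.Graph.R_seed8.Results.MP_f9aece_nt.EveryRealOrder

set_option autoImplicit false

/-!
# MP_f9aece_nt: the prime numbers under the moment measures `|ζ|^β`, `0 < β < 4`, on the critical line

Unconditionally, for every real `0 < β < 4`, every natural `k` and every small `η > 0` there is `C` such that for every
real `x` and all large `T`, simultaneously for all complex `c_p` with `|c_p| ≤ 1`,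

`∫_0^1 |ζ(1/2 + ix + iuT)|^β |Re ∑_{p ≤ T^η} c_p (p^(-1/2 - ix - iuT) - (β/2) / p)|^k du
    ≤ C (1 + ∑_{p ≤ T^η} |c_p|² / p)^(k/2) ∫_0^1 |ζ(1/2 + ix + iuT)|^β du`.

The last integral is the moment `a(T)` of the problem. Thus under the probability measure proportional to `|ζ|^β` every
sum over the primes up to `T^η` with bounded coefficients is concentrated around the value which the conjecture predicts.
As the constant does not depend on the `c_p`, this controls the law of the `p^(-it)` for almost all the primes: this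
consequence is the theorem `phases` below.

Proof. The primes are cut into blocks. On the blocks where the prime sum is small `|ζ|^β` is compared with
`|ζ|^j exp ((β - j) Re ∑ p^(-s))`, `j = 0, 2, 4`, whose means are known from the starting library. If the second factor is
larger than a power of `|ζ| exp (- Re ∑ p^(-s))`, then the first factor can be replaced by `exp (β Re ∑ p^(-s))`, up to an
exponential of the second, and only a mean of short Dirichlet polynomials is left, which is computed on the torus.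
-/

namespace Pool.Agent.Results.MP_f9aece_nt.PrimeSumsOnTheLine

open Filter MeasureTheory

/-- the moment `a(T)` of the problem, with the shift `x` -/
noncomputable def a (β x T : ℝ) : ℝ :=
  ∫ u in (0:ℝ)..1, ‖riemannZeta (1 / 2 + x * Complex.I + (u * T) * Complex.I)‖ ^ β

/-- the primes up to `y` -/
noncomputable def P (y : ℝ) : Finset ℕ := (Finset.range (⌊y⌋₊ + 1)).filter Nat.Prime

/-- the mean of `p^(-ix-iuT)` under the probability measure proportional to `|ζ(1/2 + ix + iuT)|^β du` -/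
noncomputable def m (β x T : ℝ) (p : ℕ) : ℂ :=
  (∫ u in (0:ℝ)..1, ((‖riemannZeta (1 / 2 + x * Complex.I + (u * T) * Complex.I)‖ ^ β : ℝ) : ℂ) *
    (p : ℂ) ^ (-((x + u * T) * Complex.I))) / (a β x T : ℂ)

/-- the deviation `√p m_p - β/2` -/
noncomputable def δ (β x T : ℝ) (p : ℕ) : ℂ := (√(p : ℝ) : ℂ) * m β x T p - ((β / 2 : ℝ) : ℂ)

/-- the lower bound for the moment -/
lemma low {β : ℝ} (h0 : 0 < β) : ∃ c : ℝ, 0 < c ∧ ∀ x : ℝ, ∀ᶠ T : ℝ in atTop,
    c * Real.log T ^ (β ^ 2 / 4) ≤ a β x T := by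
  rcases le_total β 2 with h | h
  · obtain ⟨c, C, -, -, H⟩ := Pool.Agent.Results.MP_f9aece_nt.UniformShifts.result 1 (by norm_num)
    obtain ⟨hc, H⟩ := H β h0 h
    refine ⟨c β, hc, fun x => ?_⟩
    filter_upwards [H, eventually_ge_atTop |x|, Real.tendsto_log_atTop.eventually_gt_atTop 0] with T g1 g2 g3
    rw [Real.rpow_one] at g1
    have g4 := (g1 x g2).1
    have e : Pool.Agent.Results.MP_f9aece_nt.UniformShifts.S β T = Real.log T ^ (β ^ 2 / 4) := by
      unfold Pool.Agent.Results.MP_f9aece_nt.UniformShifts.S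
      rw [Real.rpow_def_of_pos g3]; congr 1; ring
    rw [e] at g4
    exact g4
  · obtain ⟨c0, K, hc0, H⟩ := Pool.Agent.Results.MP_f9aece_nt.EveryRealOrder.result 1 one_pos (by
      rw [lt_div_iff₀ (Real.exp_pos _), one_mul]
      have := Real.exp_one_lt_d9
      linarith)
    obtain ⟨ha, H⟩ := H β h
    obtain ⟨-, H⟩ := H c0 (Or.inl le_rfl)
    refine ⟨c0 * Pool.Agent.Results.MP_f9aece_nt.EveryRealOrder.aa (β / 2) * 1 ^ (β ^ 2 / 4) /
      Real.Gamma (β ^ 2 / 4 + 1), ?_, fun x => ?_⟩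
    · have : 0 < Real.Gamma (β ^ 2 / 4 + 1) := Real.Gamma_pos_of_pos (by positivity)
      positivity
    · filter_upwards [H x] with T g1
      refine g1.trans (le_of_eq ?_)
      unfold a
      refine intervalIntegral.integral_congr fun u _ => ?_
      have e : (1 / 2 + Complex.I * x + Complex.I * u * T) = 1 / 2 + x * Complex.I + (u * T) * Complex.I := by ring
      exact congrArg (fun s => ‖riemannZeta s‖ ^ β) e

open Pool.Agent.KS6_89.BT in
/-- the bound for one power -/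
lemma main {β : ℝ} (h0 : 0 < β) (h4 : β < 4) (k : ℕ) : ∃ η₁ : ℝ, 0 < η₁ ∧ ∀ η : ℝ, 0 < η → η ≤ η₁ →
    ∃ C : ℝ, 0 < C ∧ ∀ x : ℝ, ∀ᶠ T : ℝ in atTop, ∀ c : ℕ → ℂ, (∀ p, ‖c p‖ ≤ 1) →
      ∫ u in (0:ℝ)..1, ‖riemannZeta (1 / 2 + x * Complex.I + (u * T) * Complex.I)‖ ^ β *
        |∑ p ∈ P (T ^ η), (c p * ((p:ℂ) ^ (-(1 / 2 + (x + u * T) * Complex.I)) - ((β / 2 / p : ℝ) : ℂ))).re| ^ k ≤
      C * √(1 + ∑ p ∈ P (T ^ η), ‖c p‖ ^ 2 / p) ^ k * a β x T := by
  obtain ⟨η₁, hη₁, H⟩ := all2 h0 h4 k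
  obtain ⟨c0, hc0, hlow⟩ := low h0
  refine ⟨η₁, hη₁, fun η hη hη1 => ?_⟩
  obtain ⟨C, hC, h⟩ := H η hη hη1
  refine ⟨C / c0, by positivity, fun x => ?_⟩
  filter_upwards [h x, hlow x, eventually_gt_atTop 0] with T h1 h2 hT c hc
  have ey : T ^ η = Pool.Agent.H998_TS.yy η T := by
    unfold Pool.Agent.H998_TS.yy
    rw [Real.rpow_def_of_pos hT, mul_comm]
  rw [ey]
  have h1 := h1 c hc
  have e2 : ∫ u in (0:ℝ)..1, ‖riemannZeta (1 / 2 + x * Complex.I + (u * T) * Complex.I)‖ ^ β *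
        |∑ p ∈ P (Pool.Agent.H998_TS.yy η T), (c p * ((p:ℂ) ^ (-(1 / 2 + (x + u * T) * Complex.I)) -
          ((β / 2 / p : ℝ) : ℂ))).re| ^ k =
      T⁻¹ * ∫ t in x..(T + x), FB β k c (Pool.Agent.H998_TS.yy η T) t := by
    have h5 := intervalIntegral.integral_comp_mul_add (a := (0:ℝ)) (b := 1)
      (fun t => FB β k c (Pool.Agent.H998_TS.yy η T) t) hT.ne' x
    rw [mul_zero, zero_add, mul_one, smul_eq_mul] at h5
    rw [← h5]
    refine intervalIntegral.integral_congr fun u _ => ?_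
    have e3 : (1 / 2 + (x:ℂ) * Complex.I + ((u:ℂ) * (T:ℂ)) * Complex.I) =
        Pool.Agent.H306R2.SM.cl (T * u + x) := by
      unfold Pool.Agent.H306R2.SM.cl
      push_cast
      ring
    have e4 : (1 / 2 + ((x:ℂ) + u * T) * Complex.I) = 1 / 2 + ((T * u + x : ℝ) : ℂ) * Complex.I := by
      push_cast; ring
    change ‖riemannZeta (1 / 2 + (x:ℂ) * Complex.I + ((u:ℂ) * (T:ℂ)) * Complex.I)‖ ^ β * |∑ p ∈ P (Pool.Agent.H998_TS.yy η T),
      (c p * ((p:ℂ) ^ (-(1 / 2 + ((x:ℂ) + u * T) * Complex.I)) - ((β / 2 / p : ℝ) : ℂ))).re| ^ k = _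
    rw [e3, e4]
    rfl
  rw [e2]
  have hT1 : 0 < T⁻¹ := by positivity
  have hV : VS c (Pool.Agent.H998_TS.yy η T) = ∑ p ∈ P (Pool.Agent.H998_TS.yy η T), ‖c p‖ ^ 2 / p := rfl
  rw [hV] at h1
  set Y := √(1 + ∑ p ∈ P (Pool.Agent.H998_TS.yy η T), ‖c p‖ ^ 2 / (p:ℝ)) ^ k with hY
  have hY0 : 0 ≤ Y := by positivity
  calc T⁻¹ * ∫ t in x..(T + x), FB β k c (Pool.Agent.H998_TS.yy η T) t ≤
      T⁻¹ * (C * Y * (T * Real.log T ^ (β ^ 2 / 4))) := mul_le_mul_of_nonneg_left h1 hT1.le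
    _ = C / c0 * Y * (c0 * Real.log T ^ (β ^ 2 / 4)) := by field_simp
    _ ≤ C / c0 * Y * a β x T := mul_le_mul_of_nonneg_left h2 (by positivity)

/-- **Theorem.** The moments of the prime sums with arbitrary coefficients under the measure `|ζ|^β`, `0 < β < 4`. -/
theorem result (β : ℝ) (hβ0 : 0 < β) (hβ4 : β < 4) (k : ℕ) :
    ∃ η₁ : ℝ, 0 < η₁ ∧ ∀ η : ℝ, 0 < η → η ≤ η₁ → ∃ C : ℝ, 0 < C ∧ ∀ x : ℝ, ∀ᶠ T : ℝ in atTop,
      ∀ c : ℕ → ℂ, (∀ p, ‖c p‖ ≤ 1) →
        ∫ u in (0:ℝ)..1, ‖riemannZeta (1 / 2 + x * Complex.I + (u * T) * Complex.I)‖ ^ β *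
          |(∑ p ∈ P (T ^ η), c p * ((p:ℂ) ^ (-(1 / 2 + x * Complex.I + (u * T) * Complex.I)) - β / 2 / p)).re| ^ k ≤
        C * (1 + ∑ p ∈ P (T ^ η), ‖c p‖ ^ 2 / p) ^ ((k:ℝ) / 2) *
          ∫ u in (0:ℝ)..1, ‖riemannZeta (1 / 2 + x * Complex.I + (u * T) * Complex.I)‖ ^ β := by
  obtain ⟨η₁, hη₁, H⟩ := main hβ0 hβ4 k
  refine ⟨η₁, hη₁, fun η hη hη1 => ?_⟩
  obtain ⟨C, hC, h⟩ := H η hη hη1
  refine ⟨C, hC, fun x => ?_⟩
  filter_upwards [h x] with T h1 c hc
  have h2 := h1 c hc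
  set V := ∑ p ∈ P (T ^ η), ‖c p‖ ^ 2 / (p:ℝ) with hV
  have hV0 : 0 ≤ V := Finset.sum_nonneg fun p _ => by positivity
  have e1 : √(1 + V) ^ k = (1 + V) ^ ((k:ℝ) / 2) := by
    rw [Real.sqrt_eq_rpow, ← Real.rpow_natCast, ← Real.rpow_mul (by linarith)]
    congr 1; ring
  rw [e1] at h2
  refine le_trans (le_of_eq ?_) h2
  refine intervalIntegral.integral_congr fun u _ => ?_
  have e2 : ∀ p : ℕ, (p:ℂ) ^ (-(1 / 2 + (x:ℂ) * Complex.I + ((u:ℂ) * T) * Complex.I)) =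
      (p:ℂ) ^ (-(1 / 2 + ((x:ℂ) + u * T) * Complex.I)) := by
    intro p; congr 1; ring
  have e3 : ∀ p : ℕ, (((β / 2 / p : ℝ)) : ℂ) = (β:ℂ) / 2 / p := by
    intro p; push_cast; rfl
  change ‖riemannZeta (1 / 2 + (x:ℂ) * Complex.I + ((u:ℂ) * (T:ℂ)) * Complex.I)‖ ^ β *
    |(∑ p ∈ P (T ^ η), c p * ((p:ℂ) ^ (-(1 / 2 + (x:ℂ) * Complex.I + ((u:ℂ) * T) * Complex.I)) -
      (β:ℂ) / 2 / p)).re| ^ k = _
  rw [Complex.re_sum]
  simp_rw [e2, e3]

/-- The consequence of the theorem for the means of the `p^(-it)`. -/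
theorem phases (β : ℝ) (hβ0 : 0 < β) (hβ4 : β < 4) :
    ∃ η₁ : ℝ, 0 < η₁ ∧ ∀ η : ℝ, 0 < η → η ≤ η₁ → ∃ C : ℝ, 0 < C ∧ ∀ x : ℝ, ∀ᶠ T : ℝ in atTop, 0 < a β x T ∧
      ∑ p ∈ P (T ^ η), ‖δ β x T p‖ ^ 2 / ((1 + ‖δ β x T p‖) * p) ≤ C := by
  obtain ⟨ηo, hηo, Ho⟩ := main hβ0 hβ4 1
  obtain ⟨c0, hc0, hlow⟩ := low hβ0
  refine ⟨ηo, hηo, fun η hη hη1 => ?_⟩
  obtain ⟨Co, hCo, ho⟩ := Ho η hη hη1
  refine ⟨Co ^ 2 + 1, by positivity, fun x => ?_⟩
  filter_upwards [ho x, hlow x, Real.tendsto_log_atTop.eventually_gt_atTop 0] with T h2 h3 hL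
  have ha : 0 < a β x T := lt_of_lt_of_le (by positivity) h3
  refine ⟨ha, ?_⟩
  set D : ℕ → ℂ := fun p => δ β x T p with hD
  set c : ℕ → ℂ := fun p => (starRingEnd ℂ (D p)) / ((1 + ‖D p‖ : ℝ) : ℂ) with hc
  have hn : ∀ p, ‖c p‖ = ‖D p‖ / (1 + ‖D p‖) := by
    intro p
    simp only [hc]
    rw [norm_div, Complex.norm_real, Complex.norm_conj, Real.norm_of_nonneg (by positivity)]
  have hc1 : ∀ p, ‖c p‖ ≤ 1 := by
    intro p
    rw [hn, div_le_one (by positivity)]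
    linarith [norm_nonneg (D p)]
  have h5 := h2 c hc1
  simp only [pow_one] at h5
  set S := P (T ^ η) with hS
  have hSp : ∀ p ∈ S, p.Prime := fun p hp => by
    rw [hS] at hp; unfold P at hp; rw [Finset.mem_filter] at hp; exact hp.2
  set Q := ∑ p ∈ S, ‖D p‖ ^ 2 / ((1 + ‖D p‖) * p) with hQ
  have hQ0 : 0 ≤ Q := Finset.sum_nonneg fun p _ => by positivity
  have hVQ : ∑ p ∈ S, ‖c p‖ ^ 2 / (p:ℝ) ≤ Q := by
    refine Finset.sum_le_sum fun p hp => ?_
    have hp0 : (0:ℝ) < p := by exact_mod_cast (hSp p hp).pos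
    rw [hn, div_pow, div_div]
    refine div_le_div_of_nonneg_left (by positivity) (by positivity) ?_
    refine mul_le_mul_of_nonneg_right ?_ hp0.le
    nlinarith [norm_nonneg (D p)]
  -- the weight
  set w : ℝ → ℝ := fun u => ‖riemannZeta (1 / 2 + x * Complex.I + (u * T) * Complex.I)‖ ^ β with hw
  have hwc : Continuous w := by
    have h6 := Pool.Agent.H998_TS.zb_cont hβ0
    have h7 : Continuous fun u : ℝ => T * u + x := by fun_prop
    refine (h6.comp h7).congr fun u => ?_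
    simp only [hw, Function.comp]
    unfold Pool.Agent.H306R2.SM.cl
    congr 3
    push_cast
    ring
  set f : ℕ → ℝ → ℂ := fun p u => (p:ℂ) ^ (-(((x:ℂ) + u * T) * Complex.I)) with hf
  have hfc : ∀ p ∈ S, Continuous (f p) := fun p hp => by
    have hp0 : (p:ℂ) ≠ 0 := by exact_mod_cast (hSp p hp).ne_zero
    simp only [hf]
    exact Continuous.const_cpow (by fun_prop) (Or.inl hp0)
  have hm : ∀ p, ∫ u in (0:ℝ)..1, (w u : ℂ) * f p u = (a β x T : ℂ) * m β x T p := by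
    intro p
    unfold m
    rw [mul_div_cancel₀ _ (by exact_mod_cast ha.ne')]
  have hsplit : ∀ p ∈ S, ∀ u : ℝ, (p:ℂ) ^ (-(1 / 2 + ((x:ℂ) + u * T) * Complex.I)) =
      (((√(p:ℝ))⁻¹ : ℝ) : ℂ) * f p u := by
    intro p hp u
    have hp0 : (p:ℂ) ≠ 0 := by exact_mod_cast (hSp p hp).ne_zero
    simp only [hf]
    rw [neg_add, Complex.cpow_add _ _ hp0]
    congr 1
    rw [Real.sqrt_eq_rpow, ← Real.rpow_neg (by positivity), Complex.ofReal_cpow (by positivity)]
    push_cast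
    rfl
  set F : ℝ → ℝ := fun u => ∑ p ∈ S, (c p * ((p:ℂ) ^ (-(1 / 2 + ((x:ℂ) + u * T) * Complex.I)) -
    ((β / 2 / p : ℝ) : ℂ))).re with hF
  have hFc : Continuous F := by
    simp only [hF]
    refine continuous_finsetSum _ fun p hp => ?_
    have hp0 : (p:ℂ) ≠ 0 := by exact_mod_cast (hSp p hp).ne_zero
    refine Complex.continuous_re.comp (continuous_const.mul (Continuous.sub ?_ continuous_const))
    exact Continuous.const_cpow (by fun_prop) (Or.inl hp0)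
  have hval : ∫ u in (0:ℝ)..1, w u * F u = a β x T * Q := by
    have e1 : ∀ u, w u * F u = (∑ p ∈ S, ((c p * (((√(p:ℝ))⁻¹ : ℝ) : ℂ)) * ((w u : ℂ) * f p u) -
        (c p * ((β / 2 / p : ℝ) : ℂ)) * (w u : ℂ))).re := by
      intro u
      rw [Complex.re_sum, hF, Finset.mul_sum]
      refine Finset.sum_congr rfl fun p hp => ?_
      rw [hsplit p hp u, ← Complex.re_ofReal_mul]
      congr 1
      ring
    have hi : ∀ p ∈ S, IntervalIntegrable (fun u => (c p * (((√(p:ℝ))⁻¹ : ℝ) : ℂ)) * ((w u : ℂ) * f p u) -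
        (c p * ((β / 2 / p : ℝ) : ℂ)) * (w u : ℂ)) volume 0 1 := by
      intro p hp
      refine Continuous.intervalIntegrable ?_ _ _
      have hwc' : Continuous fun u => (w u : ℂ) := Complex.continuous_ofReal.comp hwc
      exact (continuous_const.mul (hwc'.mul (hfc p hp))).sub (continuous_const.mul hwc')
    have e2 : ((∫ u in (0:ℝ)..1, w u * F u : ℝ)) = (∑ p ∈ S, ((c p * (((√(p:ℝ))⁻¹ : ℝ) : ℂ)) *
        ((a β x T : ℂ) * m β x T p) - (c p * ((β / 2 / p : ℝ) : ℂ)) * (a β x T : ℂ))).re := by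
      simp_rw [e1]
      have h8 : ∫ u in (0:ℝ)..1, (∑ p ∈ S, ((c p * (((√(p:ℝ))⁻¹ : ℝ) : ℂ)) * ((w u : ℂ) * f p u) -
        (c p * ((β / 2 / p : ℝ) : ℂ)) * (w u : ℂ))).re = (∫ u in (0:ℝ)..1, ∑ p ∈ S, ((c p * (((√(p:ℝ))⁻¹ : ℝ) : ℂ)) *
          ((w u : ℂ) * f p u) - (c p * ((β / 2 / p : ℝ) : ℂ)) * (w u : ℂ))).re := by
        have := Complex.reCLM.intervalIntegral_comp_comm (μ := volume) (a := (0:ℝ)) (b := 1)
          (IntervalIntegrable.sum S fun p hp => hi p hp)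
        simp only [Complex.reCLM_apply, Finset.sum_apply] at this
        exact this
      rw [h8, intervalIntegral.integral_finsetSum hi]
      congr 1
      refine Finset.sum_congr rfl fun p hp => ?_
      have hwc' : Continuous fun u => (w u : ℂ) := Complex.continuous_ofReal.comp hwc
      have i1 : IntervalIntegrable (fun u => (c p * (((√(p:ℝ))⁻¹ : ℝ) : ℂ)) * ((w u : ℂ) * f p u)) volume 0 1 :=
        (continuous_const.mul (hwc'.mul (hfc p hp))).intervalIntegrable _ _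
      have i2 : IntervalIntegrable (fun u => (c p * ((β / 2 / p : ℝ) : ℂ)) * (w u : ℂ)) volume 0 1 :=
        (continuous_const.mul hwc').intervalIntegrable _ _
      rw [intervalIntegral.integral_sub i1 i2,
        intervalIntegral.integral_const_mul, intervalIntegral.integral_const_mul, hm p]
      congr 2
      rw [intervalIntegral.integral_ofReal]
      rfl
    rw [e2, Complex.re_sum, hQ, Finset.mul_sum]
    refine Finset.sum_congr rfl fun p hp => ?_
    have hp0 : (0:ℝ) < p := by exact_mod_cast (hSp p hp).pos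
    have hs0 : (0:ℝ) < √(p:ℝ) := Real.sqrt_pos.mpr hp0
    have e3 : (c p * (((√(p:ℝ))⁻¹ : ℝ) : ℂ)) * ((a β x T : ℂ) * m β x T p) -
        (c p * ((β / 2 / p : ℝ) : ℂ)) * (a β x T : ℂ) = ((a β x T / p : ℝ) : ℂ) * (c p * D p) := by
      simp only [hD]
      unfold δ
      have e4 : (((√(p:ℝ))⁻¹ : ℝ) : ℂ) = ((√(p:ℝ) / p : ℝ) : ℂ) := by
        congr 1
        rw [eq_div_iff hp0.ne', inv_mul_eq_div, div_eq_iff hs0.ne', Real.mul_self_sqrt hp0.le]
      rw [e4]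
      push_cast
      ring
    have e5 : c p * D p = ((‖D p‖ ^ 2 / (1 + ‖D p‖) : ℝ) : ℂ) := by
      simp only [hc]
      rw [div_mul_eq_mul_div, ← Complex.normSq_eq_conj_mul_self, Complex.normSq_eq_norm_sq]
      push_cast
      rfl
    rw [e3, e5, Complex.re_ofReal_mul, Complex.ofReal_re]
    field_simp
  have h9 : a β x T * Q ≤ Co * √(1 + ∑ p ∈ S, ‖c p‖ ^ 2 / (p:ℝ)) * a β x T := by
    rw [← hval]
    refine le_trans ?_ h5
    refine intervalIntegral.integral_mono_on zero_le_one ((hwc.mul hFc).intervalIntegrable _ _)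
      ((hwc.mul hFc.abs).intervalIntegrable _ _) fun u _ => ?_
    refine mul_le_mul_of_nonneg_left (le_abs_self _) ?_
    simp only [hw]; positivity
  have h10 : Q ≤ Co * √(1 + Q) := by
    have h11 : Q ≤ Co * √(1 + ∑ p ∈ S, ‖c p‖ ^ 2 / (p:ℝ)) := by
      have : Q * a β x T ≤ (Co * √(1 + ∑ p ∈ S, ‖c p‖ ^ 2 / (p:ℝ))) * a β x T := by linarith
      exact le_of_mul_le_mul_right this ha
    refine h11.trans (mul_le_mul_of_nonneg_left (Real.sqrt_le_sqrt (by linarith)) hCo.le)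
  have h12 : Q ^ 2 ≤ Co ^ 2 * (1 + Q) := by
    have := pow_le_pow_left₀ hQ0 h10 2
    rwa [mul_pow, Real.sq_sqrt (by linarith)] at this
  have h13 : Q ≤ Co ^ 2 + 1 := by
    by_contra hcon
    push Not at hcon
    nlinarith [sq_nonneg Co]
  linarith

end Pool.Agent.Results.MP_f9aece_nt.PrimeSumsOnTheLine
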