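import Pool.Agent.KS6_89.PP.Fin3

set_option autoImplicit false

/-!
# MP_f9aece_nt: the law of the small primes under the moment measures `|ζ|^β` on the critical line

Unconditionally, for every real `0 < β < 4` there are `0 < c ≤ C` such that for every finite set `S` of primes, every
continuous function `G ≥ 0` on the torus `{z : |z_p| = 1 for p ∈ S}` and every real `x`, for all large `T`,

`c 𝔼_β[G] a(T) ≤ ∫_0^1 |ζ(1/2 + ix + iuT)|^β G((p^(-ix - iuT))_{p ∈ S}) du ≤ C 𝔼_β[G] a(T)`.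

Here `a(T) = ∫_0^1 |ζ(1/2 + ix + iuT)|^β du` is the moment of the problem, and `𝔼_β` is the expectation under which the
`z_p` are independent with the density proportional to `|1 - z_p / √p|^(-β)`, the law which the conjecture predicts.

Proof. The primes outside `S` are cut into blocks. The function is majorised by a trigonometric polynomial `g ≥ 0` in the
`p^(-it)`, `p ∈ S`, whose mean is of the same order. For `β < 2` the upper bound comes from a pointwise inequality for
`|ζ|^β` and from the twisted second moment: the mean of `|ζ|² |A|² g` for a Dirichlet polynomial `A` with the primes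
outside `S` is multiplicative, and its factor at `S` is the mean of `g` with a density which is the same for all even `g`.
For `2 ≤ β < 4`, with `|ζ|` replaced by `|ζ ∏_{p ∈ S} (1 - p^(-s))|`, the pointwise inequality bounds `|ζ|^β` by
`|ζ|⁴ |A₁|² + |ζ|² |A₂|²`, and the twisted fourth moment is used too: its main terms are averages over the torus of
random phases of all the primes, in which the factor at `S`, times `∏_{p ∈ S} |1 - p^(-s)|⁴`, is at most
`4 ∏_{p ∈ S} (1 - 1/p)` times a tame factor, uniformly in the phases, which leaves the mean of `g`. The lower bound comes from the twisted first moment of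
`ζ A \bar B q ∏_{p ∈ S} (1 - p^(-s))`, in which only the mean of `q` over the torus is left at `S`.
-/

namespace Pool.Agent.Results.MP_f9aece_nt.SmallPrimeLaw

open Filter MeasureTheory

/-- the moment `a(T)` of the problem, with the shift `x` -/
noncomputable def a (β x T : ℝ) : ℝ :=
  ∫ u in (0:ℝ)..1, ‖riemannZeta (1 / 2 + x * Complex.I + (u * T) * Complex.I)‖ ^ β

/-- the point `(e(θ_p))` of the torus -/
noncomputable def e {S : Finset ℕ} (θ : S → ℝ) : S → ℂ := fun p => Complex.exp (2 * Real.pi * θ p * Complex.I)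

/-- the density `∏_{p ∈ S} |1 - z_p / √p|^(-β)` -/
noncomputable def w (β : ℝ) {S : Finset ℕ} (z : S → ℂ) : ℝ := ∏ p : S, ‖1 - z p / (√(p : ℕ) : ℝ)‖ ^ (-β)

/-- the expectation for the density proportional to `w` -/
noncomputable def E (β : ℝ) {S : Finset ℕ} (G : (S → ℂ) → ℝ) : ℝ :=
  (∫ θ in Set.Icc (0 : S → ℝ) 1, G (e θ) * w β (e θ)) / ∫ θ in Set.Icc (0 : S → ℝ) 1, w β (e θ)

open Pool.Agent.KS6_89.PP in
/-- from the general estimate to the statement -/
lemma red {β : ℝ} (h0 : 0 < β) (h4 : β < 4) :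
    ∃ c C : ℝ, 0 < c ∧ c ≤ C ∧ ∀ S : Finset ℕ, (∀ p ∈ S, p.Prime) → ∀ G : (S → ℂ) → ℝ,
      ContinuousOn G {z | ∀ p, ‖z p‖ = 1} → (∀ z, (∀ p, ‖z p‖ = 1) → 0 ≤ G z) → ∀ x : ℝ, ∀ᶠ T : ℝ in atTop,
        c * (E β G * a β x T) ≤ ∫ u in (0:ℝ)..1, ‖riemannZeta (1 / 2 + x * Complex.I + (u * T) * Complex.I)‖ ^ β *
          G (fun p => ((p : ℕ) : ℂ) ^ (-((x + u * T) * Complex.I))) ∧
        ∫ u in (0:ℝ)..1, ‖riemannZeta (1 / 2 + x * Complex.I + (u * T) * Complex.I)‖ ^ β *
          G (fun p => ((p : ℕ) : ℂ) ^ (-((x + u * T) * Complex.I))) ≤ C * (E β G * a β x T) := by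
  obtain ⟨c, C, hc, hcC, h⟩ := final h0 h4
  refine ⟨c, C, hc, hcC, fun S hS G hG hG0 x => ?_⟩
  filter_upwards [h S hS G hG hG0 x, eventually_gt_atTop 0] with T h1 hT
  have hes : ∀ z : S → ℂ, ‖es S z‖ ^ (-β) = w β z := by
    intro z
    unfold es w
    rw [norm_prod, Real.finsetProd_rpow _ _ fun p _ => norm_nonneg _]
  have hE : WM β S G / WM β S (fun _ => 1) = E β G := by
    unfold WM E0 E
    simp only [hes, one_mul]
    rfl
  rw [hE] at h1
  have ea : a β x T = T⁻¹ * ∫ t in x..(x + T), Pool.Agent.TH806.Xz t ^ β := by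
    have h5 := intervalIntegral.integral_comp_mul_add (a := (0:ℝ)) (b := 1)
      (fun t => Pool.Agent.TH806.Xz t ^ β) hT.ne' x
    rw [mul_zero, zero_add, mul_one, smul_eq_mul, add_comm T x] at h5
    rw [← h5]
    unfold a
    refine intervalIntegral.integral_congr fun u _ => ?_
    have e3 : (1 / 2 + (x:ℂ) * Complex.I + ((u:ℂ) * (T:ℂ)) * Complex.I) =
        Pool.Agent.H306R2.SM.cl (T * u + x) := by
      unfold Pool.Agent.H306R2.SM.cl
      push_cast
      ring
    change ‖riemannZeta (1 / 2 + (x:ℂ) * Complex.I + ((u:ℂ) * (T:ℂ)) * Complex.I)‖ ^ β = _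
    rw [e3]
    rfl
  have eb : ∫ u in (0:ℝ)..1, ‖riemannZeta (1 / 2 + x * Complex.I + (u * T) * Complex.I)‖ ^ β *
      G (fun p => ((p : ℕ) : ℂ) ^ (-((x + u * T) * Complex.I))) =
      T⁻¹ * ∫ t in x..(x + T), Pool.Agent.TH806.Xz t ^ β * G (ph S t) := by
    have h5 := intervalIntegral.integral_comp_mul_add (a := (0:ℝ)) (b := 1)
      (fun t => Pool.Agent.TH806.Xz t ^ β * G (ph S t)) hT.ne' x
    rw [mul_zero, zero_add, mul_one, smul_eq_mul, add_comm T x] at h5
    rw [← h5]
    refine intervalIntegral.integral_congr fun u _ => ?_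
    have e3 : (1 / 2 + (x:ℂ) * Complex.I + ((u:ℂ) * (T:ℂ)) * Complex.I) =
        Pool.Agent.H306R2.SM.cl (T * u + x) := by
      unfold Pool.Agent.H306R2.SM.cl
      push_cast
      ring
    have e4 : (fun p : S => ((p : ℕ) : ℂ) ^ (-(((x:ℂ) + u * T) * Complex.I))) = ph S (T * u + x) := by
      funext p
      unfold ph
      congr 1
      push_cast
      ring
    change ‖riemannZeta (1 / 2 + (x:ℂ) * Complex.I + ((u:ℂ) * (T:ℂ)) * Complex.I)‖ ^ β *
      G (fun p : S => ((p : ℕ) : ℂ) ^ (-(((x:ℂ) + u * T) * Complex.I))) = _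
    rw [e3, e4]
    rfl
  have hT1 : 0 < T⁻¹ := by positivity
  rw [eb, ea]
  constructor
  · calc c * (E β G * (T⁻¹ * ∫ t in x..(x + T), Pool.Agent.TH806.Xz t ^ β)) =
        T⁻¹ * (c * (E β G * ∫ t in x..(x + T), Pool.Agent.TH806.Xz t ^ β)) := by ring
      _ ≤ _ := mul_le_mul_of_nonneg_left h1.1 hT1.le
  · calc _ ≤ T⁻¹ * (C * (E β G * ∫ t in x..(x + T), Pool.Agent.TH806.Xz t ^ β)) :=
          mul_le_mul_of_nonneg_left h1.2 hT1.le
      _ = _ := by ring

/-- **Theorem.** The law of the small primes under the measure `|ζ|^β`, `0 < β < 4`. -/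
theorem result (β : ℝ) (h0 : 0 < β) (h4 : β < 4) :
    ∃ c C : ℝ, 0 < c ∧ c ≤ C ∧ ∀ S : Finset ℕ, (∀ p ∈ S, p.Prime) → ∀ G : (S → ℂ) → ℝ,
      ContinuousOn G {z | ∀ p, ‖z p‖ = 1} → (∀ z, (∀ p, ‖z p‖ = 1) → 0 ≤ G z) → ∀ x : ℝ, ∀ᶠ T : ℝ in atTop,
        c * (E β G * a β x T) ≤ ∫ u in (0:ℝ)..1, ‖riemannZeta (1 / 2 + x * Complex.I + (u * T) * Complex.I)‖ ^ β *
          G (fun p => ((p : ℕ) : ℂ) ^ (-((x + u * T) * Complex.I))) ∧
        ∫ u in (0:ℝ)..1, ‖riemannZeta (1 / 2 + x * Complex.I + (u * T) * Complex.I)‖ ^ β *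
          G (fun p => ((p : ℕ) : ℂ) ^ (-((x + u * T) * Complex.I))) ≤ C * (E β G * a β x T) :=
  red h0 h4

end Pool.Agent.Results.MP_f9aece_nt.SmallPrimeLaw
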